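import Pool.Agent.helper31.B2.B0aA

/-! # B2, module B0a: the frame on `ℝ⁴ ∖ {0}` -/

set_option autoImplicit false

namespace Pool.Agent.helper68.B2

open scoped ContDiff Topology Matrix
open Matrix Set

/-- `fld` as a continuous linear map in the components -/
noncomputable def fldL (x : E4) : V3 →L[ℝ] E4 :=
  ∑ i, (ContinuousLinearMap.proj (R := ℝ) (φ := fun _ : Fin 3 => ℝ) i).smulRight (J i x)

theorem fldL_apply (x : E4) (v : V3) : fldL x v = fld v x := by
  simp [fldL, fld]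

theorem comps_fld (v : V3) {x : E4} (hx : x ≠ 0) : comps x (fld v x) = v := by
  funext i
  have h0 : ‖x‖ ^ 2 ≠ 0 := pow_ne_zero 2 (norm_ne_zero_iff.mpr hx)
  unfold comps fld
  rw [inner_sum]
  simp only [inner_smul_right, inner_J_J]
  rw [Finset.sum_eq_single i]
  · simp only [if_true]; field_simp
  · intro b _ hb; simp [hb.symm]
  · simp

theorem B0a_frame (x w : E4) :
    ‖x‖ ^ 2 • w = ∑ i, (inner ℝ (J i x) w : ℝ) • J i x + (inner ℝ x w : ℝ) • x := by
  ext a
  have h2 : (∑ i, (inner ℝ (J i x) w : ℝ) • J i x + (inner ℝ x w : ℝ) • x) a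
      = ∑ i, (inner ℝ (J i x) w : ℝ) * (J i x) a + (inner ℝ x w : ℝ) * x a := by
    rw [Fin.sum_univ_three, Fin.sum_univ_three]; rfl
  have h1 : (‖x‖ ^ 2 • w) a = ‖x‖ ^ 2 * w a := rfl
  rw [h1, h2, B0a_norm_sq, Fin.sum_univ_three]
  simp only [B0a_inner, Fin.sum_univ_four]
  obtain ⟨a0, a1, a2, a3⟩ := B0a_J0 x
  obtain ⟨b0, b1, b2, b3⟩ := B0a_J1 x
  obtain ⟨c0, c1, c2, c3⟩ := B0a_J2 x
  rw [a0, a1, a2, a3, b0, b1, b2, b3, c0, c1, c2, c3]
  fin_cases a
  · show _ = _ + _ * x 0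
    simp only [Fin.zero_eta, a0, b0, c0]; ring
  · show _ = _ + _ * x 1
    simp only [Fin.mk_one, a1, b1, c1]; ring
  · show _ = _ + _ * x 2
    simp only [Fin.reduceFinMk, a2, b2, c2]; ring
  · show _ = _ + _ * x 3
    simp only [Fin.reduceFinMk, a3, b3, c3]; ring

theorem fld_comps {x : E4} (hx : x ≠ 0) (w : E4) :
    w = fld (comps x w) x + (inner ℝ x w / ‖x‖ ^ 2) • x := by
  have h0 : ‖x‖ ^ 2 ≠ 0 := pow_ne_zero 2 (norm_ne_zero_iff.mpr hx)
  have h := B0a_frame x w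
  have h1 : w = (‖x‖ ^ 2)⁻¹ • (‖x‖ ^ 2 • w) := by rw [smul_smul, inv_mul_cancel₀ h0, one_smul]
  rw [h, smul_add, Finset.smul_sum] at h1
  conv_lhs => rw [h1]
  unfold fld comps
  congr 1
  · refine Finset.sum_congr rfl fun i _ => ?_
    rw [smul_smul, div_eq_inv_mul]
  · rw [smul_smul, div_eq_inv_mul]

theorem norm_fld (v : V3) (x : E4) : ‖fld v x‖ ^ 2 = (v ⬝ᵥ v) * ‖x‖ ^ 2 := by
  rw [← real_inner_self_eq_norm_sq]
  unfold fld
  rw [sum_inner]
  simp only [inner_sum, inner_smul_left, inner_smul_right, inner_J_J]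
  simp [dotProduct, Finset.sum_mul]
  refine Finset.sum_congr rfl fun i _ => by ring

theorem fld_smul_arg (v : V3) (t : ℝ) (x : E4) : fld v (t • x) = t • fld v x := by
  unfold fld
  rw [Finset.smul_sum]
  refine Finset.sum_congr rfl fun i _ => ?_
  rw [map_smul, smul_comm]

theorem fld_eq_zero {v : V3} {x : E4} (hx : x ≠ 0) (h : fld v x = 0) : v = 0 := by
  have h1 := comps_fld v hx
  rw [h] at h1
  rw [← h1]
  funext i
  simp [comps]

theorem B0a_fld_ee (i : Fin 3) (x : E4) : fld (ee i) x = J i x := by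
  unfold fld ee
  rw [Finset.sum_eq_single i]
  · simp
  · intro b _ hb; simp [hb]
  · simp

theorem B0a_contDiff_fld (v : V3) : ContDiff ℝ ∞ (fun x : E4 => fld v x) := by
  unfold fld
  exact ContDiff.sum fun i _ => (J i).contDiff.const_smul _

section
variable {F : Type*} [NormedAddCommGroup F] [NormedSpace ℝ F]

theorem Dv_linear (f : E4 → F) (v : V3) (x : E4) : Dv f v x = ∑ i, v i • Dv f (ee i) x := by
  unfold Dv
  simp only [B0a_fld_ee]
  unfold fld
  rw [map_sum]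
  refine Finset.sum_congr rfl fun i _ => ?_
  rw [map_smul]

theorem Dv_add_arg (f : E4 → F) (v w : V3) (x : E4) : Dv f (v + w) x = Dv f v x + Dv f w x := by
  unfold Dv
  rw [← map_add, ← fldL_apply, ← fldL_apply, ← fldL_apply, map_add]

theorem Dv_smul_arg (f : E4 → F) (c : ℝ) (v : V3) (x : E4) : Dv f (c • v) x = c • Dv f v x := by
  unfold Dv
  rw [← map_smul, ← fldL_apply, ← fldL_apply, map_smul]

/-- zero radial derivative -/
theorem Hom.radial {f : E4 → F} (h : Hom f) {x : E4} (hx : x ≠ 0) : fderiv ℝ f x x = 0 := by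
  by_cases hd : DifferentiableAt ℝ f x
  · have h1 : HasDerivAt (fun t : ℝ => t • x) x 1 := by
      simpa using (hasDerivAt_id (1 : ℝ)).smul_const x
    have hf : HasFDerivAt f (fderiv ℝ f x) ((1 : ℝ) • x) := by
      rw [one_smul]; exact hd.hasFDerivAt
    have h2 : HasDerivAt (fun t : ℝ => f (t • x)) (fderiv ℝ f x x) 1 :=
      hf.comp_hasDerivAt (1 : ℝ) h1
    have h3 : HasDerivAt (fun _ : ℝ => f x) (0 : F) 1 := hasDerivAt_const _ _
    have h4 : (fun t : ℝ => f (t • x)) =ᶠ[𝓝 1] (fun _ : ℝ => f x) := by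
      filter_upwards [lt_mem_nhds (show (0 : ℝ) < 1 by norm_num)] with t ht
      exact h t ht x
    exact (h2.congr_of_eventuallyEq h4.symm).unique h3
  · rw [fderiv_zero_of_not_differentiableAt hd]; rfl

theorem Hom.Dv {f : E4 → F} (h : Hom f) (v : V3) : Hom (fun x => Dv f v x) := by
  intro t ht x
  show fderiv ℝ f (t • x) (fld v (t • x)) = fderiv ℝ f x (fld v x)
  have h1 : (fun y => f (t • y)) = f := by
    funext y; exact h t ht y
  have h2 : fderiv ℝ f x = t • fderiv ℝ f (t • x) := by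
    have := fderiv_comp_smul (𝕜 := ℝ) (f := f) t (x := x)
    rw [h1] at this
    exact this
  rw [fld_smul_arg, map_smul, h2]
  rfl

theorem fderiv_decomp (f : E4 → F) {x : E4} (hx : x ≠ 0) (w : E4) :
    fderiv ℝ f x w = Dv f (comps x w) x + (inner ℝ x w / ‖x‖ ^ 2) • fderiv ℝ f x x := by
  conv_lhs => rw [fld_comps hx w]
  rw [map_add, map_smul]
  rfl

theorem Sm.contDiffAt {f : E4 → F} (h : Sm f) {x : E4} (hx : x ≠ 0) : ContDiffAt ℝ ∞ f x :=
  ContDiffOn.contDiffAt h (isOpen_compl_singleton.mem_nhds hx)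

theorem Sm.differentiableAt {f : E4 → F} (h : Sm f) {x : E4} (hx : x ≠ 0) :
    DifferentiableAt ℝ f x :=
  (h.contDiffAt hx).differentiableAt (by simp)

/-- smoothness of `Dv` along a smooth vector field, local version -/
theorem Dv_contDiffAt {f : E4 → F} {v : E4 → V3} {x : E4} (hf : ContDiffAt ℝ ∞ f x)
    (hv : ContDiffAt ℝ ∞ v x) : ContDiffAt ℝ ∞ (fun y => Dv f (v y) y) x := by
  unfold Dv
  refine ContDiffAt.clm_apply (hf.fderiv_right (m := ∞) (by simp)) ?_
  unfold fld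
  refine ContDiffAt.sum fun i _ => ?_
  exact ((contDiffAt_pi.mp hv) i).smul (J i).contDiff.contDiffAt

theorem Sm.Dv {f : E4 → F} (h : Sm f) (v : V3) : Sm (fun x => Dv f v x) := by
  intro x hx
  exact (Dv_contDiffAt (v := fun _ => v) (h.contDiffAt hx) contDiffAt_const).contDiffWithinAt

theorem B0a_second {f : E4 → F} {x : E4} (hf : ContDiffAt ℝ 2 f x) (i j : Fin 3) :
    Dv (fun y => Dv f (ee j) y) (ee i) x
      = fderiv ℝ f x (J j (J i x)) + fderiv ℝ (fderiv ℝ f) x (J i x) (J j x) := by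
  have h1 : DifferentiableAt ℝ (fderiv ℝ f) x :=
    (hf.fderiv_right (m := 1) (by norm_num)).differentiableAt (by norm_num)
  have h2 : (fun y => Dv f (ee j) y) = fun y => fderiv ℝ f y (J j y) := by
    funext y; unfold Dv; rw [B0a_fld_ee]
  rw [h2]
  have h3 := h1.hasFDerivAt.clm_apply (J j).hasFDerivAt (x := x)
  unfold Dv
  rw [h3.fderiv, B0a_fld_ee]
  simp

theorem commutator {f : E4 → F} {x : E4} (hf : ContDiffAt ℝ 2 f x) (i j : Fin 3) :
    Dv (fun y => Dv f (ee j) y) (ee i) x - Dv (fun y => Dv f (ee i) y) (ee j) x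
      = ∑ k, (2 * eps i j k) • Dv f (ee k) x := by
  have hs : fderiv ℝ (fderiv ℝ f) x (J i x) (J j x) = fderiv ℝ (fderiv ℝ f) x (J j x) (J i x) :=
    hf.isSymmSndFDerivAt (by simp) (J i x) (J j x)
  rw [B0a_second hf i j, B0a_second hf j i, hs]
  have h1 : fderiv ℝ f x (J j (J i x)) - fderiv ℝ f x (J i (J j x))
      = ∑ k, (2 * eps i j k) • fderiv ℝ f x (J k x) := by
    rw [← map_sub, J_J, map_sum]
    refine Finset.sum_congr rfl fun k _ => by rw [map_smul]
  have h2 : ∀ k, Dv f (ee k) x = fderiv ℝ f x (J k x) := by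
    intro k; unfold Dv; rw [B0a_fld_ee]
  simp only [h2]
  rw [← h1]
  abel

/-- chain rule along a curve with velocity `fld v` -/
theorem Dv_curve {f : E4 → F} {γ : ℝ → E4} {v : V3} {t : ℝ}
    (hf : DifferentiableAt ℝ f (γ t)) (hγ : HasDerivAt γ (fld v (γ t)) t) :
    HasDerivAt (fun s => f (γ s)) (Dv f v (γ t)) t :=
  hf.hasFDerivAt.comp_hasDerivAt t hγ
end

end Pool.Agent.helper68.B2
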