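import Pool.Agent.helper46.B2.GB
import Pool.Agent.helper68.B2.Defs2

/-! # B2 wave 3, module NG: null geodesics with parallel null frames -/

set_option autoImplicit false

namespace Pool.Agent.helper68.B2

open scoped ContDiff Topology Matrix
open Matrix Set

theorem NG_bilin {E F G : Type*} [NormedAddCommGroup E] [NormedSpace ℝ E]
    [FiniteDimensional ℝ E] [NormedAddCommGroup F] [NormedSpace ℝ F] [FiniteDimensional ℝ F]
    [NormedAddCommGroup G] [NormedSpace ℝ G] {T : E → F → G} (hT : IsBilinearMap ℝ T)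
    {f : ℝ → E} {g : ℝ → F} {d : E} {e : F} {t : ℝ} (hf : HasDerivAt f d t)
    (hg : HasDerivAt g e t) :
    HasDerivAt (fun s => T (f s) (g s)) (T d (g t) + T (f t) e) t := by
  have h5 := hT.toContinuousBilinearMap.hasFDerivAt_of_bilinear hf.hasFDerivAt hg.hasFDerivAt
  have h6 := h5.hasDerivAt
  refine h6.congr_deriv ?_
  rw [_root_.add_apply, add_comm]
  simp [ContinuousLinearMap.precompR, ContinuousLinearMap.precompL]

theorem NG_contDiffAt_bilin {n : WithTop ℕ∞} {D E F G : Type*} [NormedAddCommGroup D]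
    [NormedSpace ℝ D] [NormedAddCommGroup E]
    [NormedSpace ℝ E]
    [FiniteDimensional ℝ E] [NormedAddCommGroup F] [NormedSpace ℝ F] [FiniteDimensional ℝ F]
    [NormedAddCommGroup G] [NormedSpace ℝ G] {T : E → F → G} (hT : IsBilinearMap ℝ T)
    {f : D → E} {g : D → F} {x : D} (hf : ContDiffAt ℝ n f x) (hg : ContDiffAt ℝ n g x) :
    ContDiffAt ℝ n (fun y => T (f y) (g y)) x :=
  hT.toContinuousBilinearMap.isBoundedBilinearMap.contDiff.contDiffAt.comp x (hf.prodMk hg)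

theorem NG_bil_dot : IsBilinearMap ℝ (fun V W : V3 => V ⬝ᵥ W) where
  add_left _ _ _ := by simp [add_dotProduct]
  smul_left _ _ _ := by simp [smul_dotProduct]
  add_right _ _ _ := by simp [dotProduct_add]
  smul_right _ _ _ := by simp [dotProduct_smul]

/-- functions with constant derivative on a symmetric interval -/
theorem NG_const {f : ℝ → ℝ} {c δ : ℝ} (hf : ∀ t ∈ Ioo (-δ) δ, HasDerivAt f c t) :
    ∀ t ∈ Ioo (-δ) δ, f t = f 0 + c * t := by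
  intro t ht
  have hδ : 0 < δ := by have := ht.1.trans ht.2; linarith
  have h0 : (0 : ℝ) ∈ Ioo (-δ) δ := ⟨by linarith, hδ⟩
  have hg : ∀ s ∈ Ioo (-δ) δ, HasDerivAt (fun s => f s - c * s) 0 s := by
    intro s hs
    have h1 : HasDerivAt (fun s => c * s) c s := by
      simpa using (hasDerivAt_id s).const_mul c
    have h2 : HasDerivAt (fun s => f s - c * s) (c - c) s := (hf s hs).sub h1
    rwa [sub_self] at h2
  have h1 := isOpen_Ioo.is_const_of_deriv_eq_zero isPreconnected_Ioo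
    (fun s hs => (hg s hs).differentiableAt.differentiableWithinAt)
    (fun s hs => (hg s hs).deriv) ht h0
  simp only [mul_zero, sub_zero] at h1
  linarith

/-- a linear homogeneous system with zero initial value -/
theorem NG_linear {A : ℝ → M3} {w : ℝ → V3} {δ K : ℝ} (hδ : 0 < δ)
    (hA : ∀ t ∈ Ioo (-δ) δ, ‖A t‖ ≤ K)
    (hw : ∀ t ∈ Ioo (-δ) δ, HasDerivAt w (-(A t *ᵥ w t)) t) (h0 : w 0 = 0) :
    ∀ t ∈ Ioo (-δ) δ, w t = 0 := by
  have hmem : (0 : ℝ) ∈ Ioo (-δ) δ := ⟨by linarith, hδ⟩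
  have hK : 0 ≤ K := (norm_nonneg _).trans (hA 0 hmem)
  have hv : ∀ t ∈ Ioo (-δ) δ, LipschitzOnWith ⟨K, hK⟩ (fun y : V3 => -(A t *ᵥ y)) univ := by
    intro t ht
    refine LipschitzOnWith.of_dist_le_mul fun x _ y _ => ?_
    rw [dist_eq_norm, dist_eq_norm, ← neg_sub', norm_neg, ← mulVec_sub]
    exact (Matrix.linfty_opNorm_mulVec _ _).trans
      (mul_le_mul_of_nonneg_right (hA t ht) (norm_nonneg _))
  have h := ODE_solution_unique_of_mem_Ioo (v := fun t (y : V3) => -(A t *ᵥ y))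
    (s := fun _ => univ) (f := w) (g := fun _ => (0 : V3)) hv hmem
    (fun t ht => ⟨hw t ht, mem_univ _⟩)
    (fun t _ => ⟨by simpa using hasDerivAt_const t (0 : V3), mem_univ _⟩) h0
  exact fun t ht => h ht

namespace Geo
variable (S : Geo)

/-- derivative of `g (U, W)` along a curve with velocity `fld z`; `U', W'` are the covariant
derivatives -/
theorem along_g {γ : ℝ → E4} {z U W : ℝ → V3} {U' W' : V3} {t : ℝ} (hγ0 : γ t ≠ 0)
    (hγ : HasDerivAt γ (fld (z t) (γ t)) t)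
    (hU : HasDerivAt U (U' - S.Gam (z t) (γ t) *ᵥ U t) t)
    (hW : HasDerivAt W (W' - S.Gam (z t) (γ t) *ᵥ W t) t) :
    HasDerivAt (fun s => S.g (γ s) (U s) (W s)) (S.g (γ t) U' (W t) + S.g (γ t) (U t) W') t := by
  have hG : HasDerivAt (fun s => S.G (γ s)) (Dv S.G (z t) (γ t)) t :=
    Dv_curve (S.GA_diffG hγ0) hγ
  have h1 := NG_bilin B0b_bil_mulVec hG hW
  have h2 := NG_bilin NG_bil_dot hU h1
  refine h2.congr_deriv ?_
  rw [S.metric_v hγ0]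
  have h3 : (S.Gam (z t) (γ t) *ᵥ U t) ⬝ᵥ (S.G (γ t) *ᵥ W t)
      = U t ⬝ᵥ (((S.Gam (z t) (γ t))ᵀ * S.G (γ t)) *ᵥ W t) :=
    GA_bil_mulVec_left (S.G (γ t)) (S.Gam (z t) (γ t)) (U t) (W t)
  simp only [g, bil, sub_dotProduct, dotProduct_add, add_mulVec, mulVec_sub, dotProduct_sub, h3,
    Matrix.mulVec_mulVec]
  ring

theorem along_vec {γ : ℝ → E4} {z : ℝ → V3} {t : ℝ} {V : E4 → V3}
    (hγ : HasDerivAt γ (fld (z t) (γ t)) t) (hV : DifferentiableAt ℝ V (γ t)) :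
    HasDerivAt (fun s => V (γ s)) (S.nab V (z t) (γ t) - S.Gam (z t) (γ t) *ᵥ V (γ t)) t := by
  refine (Dv_curve hV hγ).congr_deriv ?_
  unfold nab
  abel

theorem along_mulVec {γ : ℝ → E4} {z W : ℝ → V3} {W' : V3} {t : ℝ} {A : E4 → M3}
    (hγ : HasDerivAt γ (fld (z t) (γ t)) t) (hA : DifferentiableAt ℝ A (γ t))
    (hW : HasDerivAt W (W' - S.Gam (z t) (γ t) *ᵥ W t) t) :
    HasDerivAt (fun s => A (γ s) *ᵥ W s)
      (S.nabE A (z t) (γ t) *ᵥ W t + A (γ t) *ᵥ W' - S.Gam (z t) (γ t) *ᵥ (A (γ t) *ᵥ W t)) t := by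
  have h1 := NG_bilin B0b_bil_mulVec (Dv_curve hA hγ) hW
  refine h1.congr_deriv ?_
  unfold nabE
  simp only [add_mulVec, sub_mulVec, mulVec_sub, Matrix.mulVec_mulVec]
  abel

theorem NG_contDiffAt {p : E4 × V3 × V3 × V3} (hp : p.1 ≠ 0) :
    ContDiffAt ℝ ∞ (fun q : E4 × V3 × V3 × V3 => S.Gam q.2.1 q.1) p := by
  unfold Gam
  refine ContDiffAt.sum fun i _ => ?_
  have h1 : ContDiffAt ℝ ∞ (fun q : E4 × V3 × V3 × V3 => q.2.1) p :=
    contDiffAt_fst.comp p contDiffAt_snd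
  have h2 : ContDiffAt ℝ ∞ (fun q : E4 × V3 × V3 × V3 => S.Γ i q.1) p :=
    ((S.smΓ i).contDiffAt hp).comp p contDiffAt_fst
  exact (contDiffAt_pi.1 h1 i).smul h2

/-- the geodesic vector field -/
noncomputable def NG_F (p : E4 × V3 × V3 × V3) : E4 × V3 × V3 × V3 :=
  (fld p.2.1 p.1, -(S.Gam p.2.1 p.1 *ᵥ p.2.1), -(S.Gam p.2.1 p.1 *ᵥ p.2.2.1),
    -(S.Gam p.2.1 p.1 *ᵥ p.2.2.2))

theorem NG_F_contDiffAt {p : E4 × V3 × V3 × V3} (hp : p.1 ≠ 0) :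
    ContDiffAt ℝ ∞ S.NG_F p := by
  unfold NG_F
  have h1 : ContDiffAt ℝ ∞ (fun q : E4 × V3 × V3 × V3 => q.1) p := contDiffAt_fst
  have h2 : ContDiffAt ℝ ∞ (fun q : E4 × V3 × V3 × V3 => q.2) p := contDiffAt_snd
  have hz : ContDiffAt ℝ ∞ (fun q : E4 × V3 × V3 × V3 => q.2.1) p := contDiffAt_fst.comp p h2
  have h3 : ContDiffAt ℝ ∞ (fun q : E4 × V3 × V3 × V3 => q.2.2) p := contDiffAt_snd.comp p h2
  have hn : ContDiffAt ℝ ∞ (fun q : E4 × V3 × V3 × V3 => q.2.2.1) p := contDiffAt_fst.comp p h3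
  have he : ContDiffAt ℝ ∞ (fun q : E4 × V3 × V3 × V3 => q.2.2.2) p := contDiffAt_snd.comp p h3
  have hG := S.NG_contDiffAt hp
  refine ContDiffAt.prodMk ?_ (ContDiffAt.prodMk ?_ (ContDiffAt.prodMk ?_ ?_))
  · unfold fld
    refine ContDiffAt.sum fun i _ => ?_
    exact (contDiffAt_pi.1 hz i).smul ((J i).contDiff.contDiffAt.comp p h1)
  · exact (NG_contDiffAt_bilin B0b_bil_mulVec hG hz).neg
  · exact (NG_contDiffAt_bilin B0b_bil_mulVec hG hn).neg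
  · exact (NG_contDiffAt_bilin B0b_bil_mulVec hG he).neg

theorem NG_curve {x₀ : E4} (hx : x₀ ≠ 0) (z₀ n₀ e₀ : V3) :
    ∃ δ : ℝ, 0 < δ ∧ ∃ (γ : ℝ → E4) (z n e : ℝ → V3) (K : ℝ), γ 0 = x₀ ∧ z 0 = z₀ ∧ n 0 = n₀ ∧
      e 0 = e₀ ∧
      ∀ t ∈ Ioo (-δ) δ, γ t ≠ 0 ∧ HasDerivAt γ (fld (z t) (γ t)) t ∧
        HasDerivAt z (-(S.Gam (z t) (γ t) *ᵥ z t)) t ∧
        HasDerivAt n (-(S.Gam (z t) (γ t) *ᵥ n t)) t ∧
        HasDerivAt e (-(S.Gam (z t) (γ t) *ᵥ e t)) t ∧ ‖S.Gam (z t) (γ t)‖ ≤ K := by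
  have hp : ((x₀, z₀, n₀, e₀) : E4 × V3 × V3 × V3).1 ≠ 0 := hx
  obtain ⟨α, hα0, ε, hε, hα⟩ :=
    ((S.NG_F_contDiffAt hp).of_le (by simp)
      ).exists_forall_mem_closedBall_exists_eq_forall_mem_Ioo_hasDerivAt₀ (0 : ℝ)
  rw [zero_sub, zero_add] at hα
  have h0mem : (0 : ℝ) ∈ Ioo (-ε) ε := ⟨by linarith, hε⟩
  have hcont : ContinuousAt α 0 := (hα 0 h0mem).continuousAt
  have hG : ContinuousAt (fun t => S.Gam (α t).2.1 (α t).1) 0 := by
    have h1 : ContinuousAt (fun q : E4 × V3 × V3 × V3 => S.Gam q.2.1 q.1) (α 0) := by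
      rw [hα0]; exact (S.NG_contDiffAt hp).continuousAt
    exact ContinuousAt.comp (f := α) h1 hcont
  have h1 : ∀ᶠ t in 𝓝 (0 : ℝ), (α t).1 ≠ 0 := by
    have h2 : ContinuousAt (fun t => (α t).1) 0 := hcont.fst
    apply h2.eventually_ne
    rw [hα0]; exact hx
  have h2 : ∀ᶠ t in 𝓝 (0 : ℝ), ‖S.Gam (α t).2.1 (α t).1‖ < ‖S.Gam (α 0).2.1 (α 0).1‖ + 1 :=
    hG.norm.eventually (gt_mem_nhds (lt_add_one _))
  obtain ⟨ρ, hρ, hball⟩ := Metric.eventually_nhds_iff.1 (h1.and h2)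
  refine ⟨min ε ρ, lt_min hε hρ, fun t => (α t).1, fun t => (α t).2.1, fun t => (α t).2.2.1,
    fun t => (α t).2.2.2, ‖S.Gam (α 0).2.1 (α 0).1‖ + 1, by simp [hα0], by simp [hα0],
    by simp [hα0], by simp [hα0], ?_⟩
  intro t ht
  have ht1 : t ∈ Ioo (-ε) ε :=
    ⟨by have := min_le_left ε ρ; linarith [ht.1], lt_of_lt_of_le ht.2 (min_le_left _ _)⟩
  have ht2 : dist t 0 < ρ := by
    rw [Real.dist_0_eq_abs, abs_lt]
    exact ⟨by have := min_le_right ε ρ; linarith [ht.1], lt_of_lt_of_le ht.2 (min_le_right _ _)⟩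
  obtain ⟨h3, h4⟩ := hball ht2
  have hd := hα t ht1
  have hd1 := (ContinuousLinearMap.fst ℝ E4 (V3 × V3 × V3)).hasFDerivAt.comp_hasDerivAt t hd
  have hd2 := (ContinuousLinearMap.snd ℝ E4 (V3 × V3 × V3)).hasFDerivAt.comp_hasDerivAt t hd
  have hd3 := (ContinuousLinearMap.fst ℝ V3 (V3 × V3)).hasFDerivAt.comp_hasDerivAt t hd2
  have hd4 := (ContinuousLinearMap.snd ℝ V3 (V3 × V3)).hasFDerivAt.comp_hasDerivAt t hd2
  have hd5 := (ContinuousLinearMap.fst ℝ V3 V3).hasFDerivAt.comp_hasDerivAt t hd4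
  have hd6 := (ContinuousLinearMap.snd ℝ V3 V3).hasFDerivAt.comp_hasDerivAt t hd4
  exact ⟨h3, hd1, hd3, hd5, hd6, h4.le⟩

theorem null_geodesic {x₀ : E4} (hx : x₀ ≠ 0) {z₀ n₀ e₀ : V3} (hf : NFrame (S.G x₀) z₀ n₀ e₀)
    {μ₀ : ℝ} (hL : S.L x₀ *ᵥ z₀ = μ₀ • z₀) :
    ∃ δ : ℝ, 0 < δ ∧ ∃ (γ : ℝ → E4) (z n e : ℝ → V3), γ 0 = x₀ ∧ z 0 = z₀ ∧ n 0 = n₀ ∧ e 0 = e₀ ∧
      ∀ t ∈ Ioo (-δ) δ, γ t ≠ 0 ∧ HasDerivAt γ (fld (z t) (γ t)) t ∧
        HasDerivAt z (-(S.Gam (z t) (γ t) *ᵥ z t)) t ∧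
        HasDerivAt n (-(S.Gam (z t) (γ t) *ᵥ n t)) t ∧
        HasDerivAt e (-(S.Gam (z t) (γ t) *ᵥ e t)) t ∧
        NFrame (S.G (γ t)) (z t) (n t) (e t) ∧
        S.L (γ t) *ᵥ z t = (μ₀ + S.g x₀ (S.lam x₀) z₀ * t) • z t ∧
        S.g (γ t) (S.lam (γ t)) (z t) = S.g x₀ (S.lam x₀) z₀ ∧
        (S.L (γ t)).trace = (S.L x₀).trace + 2 * S.g x₀ (S.lam x₀) z₀ * t := by
  obtain ⟨δ, hδ, γ, z, n, e, K, hγ0, hz0, hn0, he0, hall⟩ := S.NG_curve hx z₀ n₀ e₀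
  refine ⟨δ, hδ, γ, z, n, e, hγ0, hz0, hn0, he0, ?_⟩
  -- parallel products are constant
  have hpar : ∀ {U W : ℝ → V3}, (∀ t ∈ Ioo (-δ) δ, HasDerivAt U (-(S.Gam (z t) (γ t) *ᵥ U t)) t) →
      (∀ t ∈ Ioo (-δ) δ, HasDerivAt W (-(S.Gam (z t) (γ t) *ᵥ W t)) t) →
      ∀ t ∈ Ioo (-δ) δ, S.g (γ t) (U t) (W t) = S.g x₀ (U 0) (W 0) := by
    intro U W hU hW t ht
    have h1 : ∀ t ∈ Ioo (-δ) δ, HasDerivAt (fun s => S.g (γ s) (U s) (W s)) 0 t := by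
      intro t ht
      obtain ⟨a1, a2, -⟩ := hall t ht
      refine (S.along_g (z := z) (U' := 0) (W' := 0) a1 a2 (by rw [zero_sub]; exact hU t ht)
        (by rw [zero_sub]; exact hW t ht)).congr_deriv ?_
      simp [g, bil]
    have h2 := NG_const h1 t ht
    rw [zero_mul, add_zero, hγ0] at h2
    exact h2
  have hz : ∀ t ∈ Ioo (-δ) δ, HasDerivAt z (-(S.Gam (z t) (γ t) *ᵥ z t)) t :=
    fun t ht => (hall t ht).2.2.1
  have hn : ∀ t ∈ Ioo (-δ) δ, HasDerivAt n (-(S.Gam (z t) (γ t) *ᵥ n t)) t :=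
    fun t ht => (hall t ht).2.2.2.1
  have he : ∀ t ∈ Ioo (-δ) δ, HasDerivAt e (-(S.Gam (z t) (γ t) *ᵥ e t)) t :=
    fun t ht => (hall t ht).2.2.2.2.1
  have hfr : ∀ t ∈ Ioo (-δ) δ, NFrame (S.G (γ t)) (z t) (n t) (e t) := by
    intro t ht
    refine ⟨?_, ?_, ?_, ?_, ?_, ?_⟩
    · have := hpar hz hz t ht; rw [hz0] at this; exact this.trans hf.zz
    · have := hpar hn hn t ht; rw [hn0] at this; exact this.trans hf.nn
    · have := hpar hz hn t ht; rw [hz0, hn0] at this; exact this.trans hf.zn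
    · have := hpar he he t ht; rw [he0] at this; exact this.trans hf.ee
    · have := hpar hz he t ht; rw [hz0, he0] at this; exact this.trans hf.ze
    · have := hpar hn he t ht; rw [hn0, he0] at this; exact this.trans hf.ne
  -- the derivative of `L z`
  have hLz : ∀ t ∈ Ioo (-δ) δ, HasDerivAt (fun s => S.L (γ s) *ᵥ z s)
      (S.g (γ t) (S.lam (γ t)) (z t) • z t - S.Gam (z t) (γ t) *ᵥ (S.L (γ t) *ᵥ z t)) t := by
    intro t ht
    obtain ⟨a1, a2, -⟩ := hall t ht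
    refine (S.along_mulVec (W' := 0) a2 (S.GA_diffL a1)
      (by rw [zero_sub]; exact hz t ht)).congr_deriv ?_
    have hzz : S.g (γ t) (z t) (z t) = 0 := (hfr t ht).zz
    rw [S.main_v a1, S.od_apply a1, hzz, mulVec_zero]
    simp
  -- the eigenvalue
  have hμ : ∀ t ∈ Ioo (-δ) δ, HasDerivAt (fun s => S.g (γ s) (S.L (γ s) *ᵥ z s) (n s))
      (S.g (γ t) (S.lam (γ t)) (z t)) t := by
    intro t ht
    obtain ⟨a1, a2, -⟩ := hall t ht
    refine (S.along_g (z := z) (U := fun s => S.L (γ s) *ᵥ z s) (W' := 0) a1 a2 (hLz t ht)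
      (by rw [zero_sub]; exact hn t ht)).congr_deriv ?_
    have hzn : bil (S.G (γ t)) (z t) (n t) = 1 := (hfr t ht).zn
    have h0 : ∀ u : V3, S.g (γ t) u 0 = 0 := by intro u; simp [g, bil]
    rw [h0, add_zero]
    unfold g
    rw [GA_bil_smul_left, hzn, mul_one]
  have h0mem : (0 : ℝ) ∈ Ioo (-δ) δ := ⟨by linarith, hδ⟩
  have hw : ∀ t ∈ Ioo (-δ) δ, S.L (γ t) *ᵥ z t
      - S.g (γ t) (S.L (γ t) *ᵥ z t) (n t) • z t = 0 := by
    refine NG_linear (A := fun t => S.Gam (z t) (γ t)) hδ (fun t ht => (hall t ht).2.2.2.2.2) ?_ ?_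
    · intro t ht
      refine ((hLz t ht).sub ((hμ t ht).smul (hz t ht))).congr_deriv ?_
      simp only [mulVec_sub, mulVec_smul, smul_neg]
      abel
    · simp only [hγ0, hz0, hn0, hL]
      unfold g
      rw [GA_bil_smul_left, hf.zn, mul_one, sub_self]
  have hzne : ∀ t ∈ Ioo (-δ) δ, z t ≠ 0 := by
    intro t ht h
    have := (hfr t ht).zn
    rw [h] at this
    simp [bil] at this
  -- `g (lam, z)` is constant
  have hl : ∀ t ∈ Ioo (-δ) δ, S.g (γ t) (S.lam (γ t)) (z t) = S.g x₀ (S.lam x₀) z₀ := by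
    have h1 : ∀ t ∈ Ioo (-δ) δ, HasDerivAt (fun s => S.g (γ s) (S.lam (γ s)) (z s)) 0 t := by
      intro t ht
      obtain ⟨a1, a2, -⟩ := hall t ht
      refine (S.along_g (z := z) (U := fun s => S.lam (γ s)) (W' := 0) a1 a2
        (S.along_vec a2 (S.smlam.differentiableAt a1))
        (by rw [zero_sub]; exact hz t ht)).congr_deriv ?_
      obtain ⟨θ, hθ⟩ := S.F1 a1 (hzne t ht) (sub_eq_zero.1 (hw t ht))
      have h0 : ∀ u : V3, S.g (γ t) u 0 = 0 := by intro u; simp [g, bil]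
      have hzz : bil (S.G (γ t)) (z t) (z t) = 0 := (hfr t ht).zz
      rw [h0, add_zero, ← S.Lam_mulVec, hθ]
      unfold g
      rw [GA_bil_smul_left, hzz, mul_zero]
    intro t ht
    have h2 := NG_const h1 t ht
    rw [zero_mul, add_zero, hγ0, hz0] at h2
    exact h2
  intro t ht
  obtain ⟨a1, a2, a3, a4, a5, -⟩ := hall t ht
  refine ⟨a1, a2, a3, a4, a5, hfr t ht, ?_, hl t ht, ?_⟩
  · have h1 : ∀ t ∈ Ioo (-δ) δ, HasDerivAt (fun s => S.g (γ s) (S.L (γ s) *ᵥ z s) (n s))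
        (S.g x₀ (S.lam x₀) z₀) t := by
      intro t ht
      rw [← hl t ht]; exact hμ t ht
    have h2 := NG_const h1 t ht
    simp only [hγ0, hz0, hn0, hL] at h2
    have h3 : S.g x₀ (μ₀ • z₀) n₀ = μ₀ := by
      unfold g; rw [GA_bil_smul_left, hf.zn, mul_one]
    rw [h3] at h2
    rw [← h2]
    exact sub_eq_zero.1 (hw t ht)
  · have h1 : ∀ t ∈ Ioo (-δ) δ, HasDerivAt (fun s => (S.L (γ s)).trace)
        (2 * S.g x₀ (S.lam x₀) z₀) t := by
      intro t ht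
      obtain ⟨a1, a2, -⟩ := hall t ht
      have hd : DifferentiableAt ℝ (fun y => (S.L y).trace) (γ t) :=
        ((B0b_H_of (v := 0) (S.GA_diffL a1)).lin (Matrix.traceLinearMap (Fin 3) ℝ ℝ)).diff
      have h4 := Dv_curve hd a2
      rw [S.Dv_trL a1, hl t ht] at h4
      exact h4
    have h2 := NG_const h1 t ht
    simp only [hγ0] at h2
    exact h2

end Geo

end Pool.Agent.helper68.B2
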