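import Pool.Agent.helper68.B2.Defs

/-! # B2, module B0a, algebraic part: the frame on `ℝ⁴ ∖ {0}` -/

set_option autoImplicit false

namespace Pool.Agent.helper68.B2

open scoped ContDiff Topology Matrix
open Matrix Set

theorem B0a_J (i : Fin 3) (x : E4) (a : Fin 4) : (J i x) a = ∑ b, Jm i a b * x b := by
  show (Matrix.toEuclideanCLM (𝕜 := ℝ) (Jm i) x).ofLp a = _
  rw [Matrix.ofLp_toEuclideanCLM]
  rfl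

theorem B0a_inner (x y : E4) : inner ℝ x y = ∑ a, x a * y a := by
  rw [EuclideanSpace.inner_eq_star_dotProduct]
  simp [dotProduct, mul_comm]

theorem B0a_norm_sq (x : E4) : ‖x‖ ^ 2 = ∑ a, x a * x a := by
  rw [← real_inner_self_eq_norm_sq, B0a_inner]

theorem B0a_J0 (x : E4) : (J 0 x) 0 = - x 1 ∧ (J 0 x) 1 = x 0 ∧ (J 0 x) 2 = x 3 ∧
    (J 0 x) 3 = - x 2 := by
  refine ⟨?_, ?_, ?_, ?_⟩ <;> rw [B0a_J] <;> simp [Jm, Fin.sum_univ_four]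

theorem B0a_J1 (x : E4) : (J 1 x) 0 = - x 2 ∧ (J 1 x) 1 = - x 3 ∧ (J 1 x) 2 = x 0 ∧
    (J 1 x) 3 = x 1 := by
  refine ⟨?_, ?_, ?_, ?_⟩ <;> rw [B0a_J] <;> simp [Jm, Fin.sum_univ_four]

theorem B0a_J2 (x : E4) : (J 2 x) 0 = - x 3 ∧ (J 2 x) 1 = x 2 ∧ (J 2 x) 2 = - x 1 ∧
    (J 2 x) 3 = x 0 := by
  refine ⟨?_, ?_, ?_, ?_⟩ <;> rw [B0a_J] <;> simp [Jm, Fin.sum_univ_four]

theorem inner_J_J (i j : Fin 3) (x : E4) :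
    inner ℝ (J i x) (J j x) = if i = j then ‖x‖ ^ 2 else 0 := by
  obtain ⟨a0, a1, a2, a3⟩ := B0a_J0 x
  obtain ⟨b0, b1, b2, b3⟩ := B0a_J1 x
  obtain ⟨c0, c1, c2, c3⟩ := B0a_J2 x
  rw [B0a_inner, B0a_norm_sq]
  fin_cases i <;> fin_cases j <;>
    simp [Fin.sum_univ_four, a0, a1, a2, a3, b0, b1, b2, b3, c0, c1, c2, c3] <;> ring

theorem inner_J_self (i : Fin 3) (x : E4) : inner ℝ (J i x) x = (0 : ℝ) := by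
  obtain ⟨a0, a1, a2, a3⟩ := B0a_J0 x
  obtain ⟨b0, b1, b2, b3⟩ := B0a_J1 x
  obtain ⟨c0, c1, c2, c3⟩ := B0a_J2 x
  rw [B0a_inner]
  fin_cases i <;>
    simp [Fin.sum_univ_four, a0, a1, a2, a3, b0, b1, b2, b3, c0, c1, c2, c3] <;> ring

theorem B0a_sub_apply (u v : E4) (a : Fin 4) : (u - v) a = u a - v a := rfl

theorem B0a_smul_apply (c : ℝ) (u : E4) (a : Fin 4) : (c • u) a = c * u a := rfl

theorem B0a_JJ01 (x : E4) : J 1 (J 0 x) - J 0 (J 1 x) = (2 : ℝ) • J 2 x := by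
  obtain ⟨a0, a1, a2, a3⟩ := B0a_J0 x
  obtain ⟨b0, b1, b2, b3⟩ := B0a_J1 x
  obtain ⟨c0, c1, c2, c3⟩ := B0a_J2 x
  obtain ⟨e0, e1, e2, e3⟩ := B0a_J1 (J 0 x)
  obtain ⟨g0, g1, g2, g3⟩ := B0a_J0 (J 1 x)
  ext a
  rw [B0a_sub_apply, B0a_smul_apply]
  fin_cases a
  · show (J 1 (J 0 x)) 0 - (J 0 (J 1 x)) 0 = 2 * (J 2 x) 0
    rw [e0, g0, c0, a2, b1]; ring
  · show (J 1 (J 0 x)) 1 - (J 0 (J 1 x)) 1 = 2 * (J 2 x) 1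
    rw [e1, g1, c1, a3, b0]; ring
  · show (J 1 (J 0 x)) 2 - (J 0 (J 1 x)) 2 = 2 * (J 2 x) 2
    rw [e2, g2, c2, a0, b3]; ring
  · show (J 1 (J 0 x)) 3 - (J 0 (J 1 x)) 3 = 2 * (J 2 x) 3
    rw [e3, g3, c3, a1, b2]; ring

theorem B0a_JJ12 (x : E4) : J 2 (J 1 x) - J 1 (J 2 x) = (2 : ℝ) • J 0 x := by
  obtain ⟨a0, a1, a2, a3⟩ := B0a_J0 x
  obtain ⟨b0, b1, b2, b3⟩ := B0a_J1 x
  obtain ⟨c0, c1, c2, c3⟩ := B0a_J2 x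
  obtain ⟨e0, e1, e2, e3⟩ := B0a_J2 (J 1 x)
  obtain ⟨g0, g1, g2, g3⟩ := B0a_J1 (J 2 x)
  ext a
  rw [B0a_sub_apply, B0a_smul_apply]
  fin_cases a
  · show (J 2 (J 1 x)) 0 - (J 1 (J 2 x)) 0 = 2 * (J 0 x) 0
    rw [e0, g0, a0, b3, c2]; ring
  · show (J 2 (J 1 x)) 1 - (J 1 (J 2 x)) 1 = 2 * (J 0 x) 1
    rw [e1, g1, a1, b2, c3]; ring
  · show (J 2 (J 1 x)) 2 - (J 1 (J 2 x)) 2 = 2 * (J 0 x) 2
    rw [e2, g2, a2, b1, c0]; ring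
  · show (J 2 (J 1 x)) 3 - (J 1 (J 2 x)) 3 = 2 * (J 0 x) 3
    rw [e3, g3, a3, b0, c1]; ring

theorem B0a_JJ20 (x : E4) : J 0 (J 2 x) - J 2 (J 0 x) = (2 : ℝ) • J 1 x := by
  obtain ⟨a0, a1, a2, a3⟩ := B0a_J0 x
  obtain ⟨b0, b1, b2, b3⟩ := B0a_J1 x
  obtain ⟨c0, c1, c2, c3⟩ := B0a_J2 x
  obtain ⟨e0, e1, e2, e3⟩ := B0a_J0 (J 2 x)
  obtain ⟨g0, g1, g2, g3⟩ := B0a_J2 (J 0 x)
  ext a
  rw [B0a_sub_apply, B0a_smul_apply]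
  fin_cases a
  · show (J 0 (J 2 x)) 0 - (J 2 (J 0 x)) 0 = 2 * (J 1 x) 0
    rw [e0, g0, b0, c1, a3]; ring
  · show (J 0 (J 2 x)) 1 - (J 2 (J 0 x)) 1 = 2 * (J 1 x) 1
    rw [e1, g1, b1, c0, a2]; ring
  · show (J 0 (J 2 x)) 2 - (J 2 (J 0 x)) 2 = 2 * (J 1 x) 2
    rw [e2, g2, b2, c3, a1]; ring
  · show (J 0 (J 2 x)) 3 - (J 2 (J 0 x)) 3 = 2 * (J 1 x) 3
    rw [e3, g3, b3, c2, a0]; ring

theorem J_J (i j : Fin 3) (x : E4) :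
    J j (J i x) - J i (J j x) = ∑ k, (2 * eps i j k) • J k x := by
  have h01 := B0a_JJ01 x
  have h12 := B0a_JJ12 x
  have h20 := B0a_JJ20 x
  rw [Fin.sum_univ_three]
  fin_cases i <;> fin_cases j
  · simp [eps]
  · show J 1 (J 0 x) - J 0 (J 1 x) = _
    rw [h01]; simp [eps]
  · show J 2 (J 0 x) - J 0 (J 2 x) = _
    rw [← neg_sub, h20]; simp [eps]
  · show J 0 (J 1 x) - J 1 (J 0 x) = _
    rw [← neg_sub, h01]; simp [eps]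
  · simp [eps]
  · show J 2 (J 1 x) - J 1 (J 2 x) = _
    rw [h12]; simp [eps]
  · show J 0 (J 2 x) - J 2 (J 0 x) = _
    rw [h20]; simp [eps]
  · show J 1 (J 2 x) - J 2 (J 1 x) = _
    rw [← neg_sub, h12]; simp [eps]
  · simp [eps]

end Pool.Agent.helper68.B2
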