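import Pool.Agent.helper46.B2.GB

/-! # B2, module T2b: wrappers of `Geo.g_Lam` and `Geo.F1` -/

set_option autoImplicit false

namespace Pool.Agent.helper68.B2.T

open scoped ContDiff Topology Matrix
open Matrix Set

theorem Lam_sa (S : Geo) {x : E4} (hx : x ≠ 0) (v w : V3) :
    S.g x (S.Lam x *ᵥ v) w = S.g x v (S.Lam x *ᵥ w) := S.g_Lam hx v w

/-- every eigenvector of `L` is an eigenvector of `∇ lam` -/
theorem F1 (S : Geo) {x : E4} (hx : x ≠ 0) {μ : ℝ} {v : V3} (hv : S.L x *ᵥ v = μ • v) :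
    ∃ c : ℝ, S.Lam x *ᵥ v = c • v := by
  by_cases h : v = 0
  · exact ⟨0, by rw [h]; simp⟩
  · exact S.F1 hx h hv

end Pool.Agent.helper68.B2.T
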